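import Pool.Agent.Results.MP_e0e877_co.Monotone
import Mathlib.Combinatorics.SimpleGraph.Sum
import Mathlib.Combinatorics.SimpleGraph.Finite
import Mathlib.Data.Nat.Bitwise
import Mathlib.Data.Fintype.Sum
import Mathlib.Logic.Equiv.Fin.Basic
import Mathlib.Tactic
import Pool.Agent.Q261.Bulk

/-!
# The game domatic numbers of a disjoint union are not functions of those of the parts

`K_3` and `K_{3,3}` both have game domatic number `2` and delayed game domatic number `2`, but
`γ_A(K_2 ∪ K_3) = 2`, `γ_B(K_2 ∪ K_3) = 1`, while `γ_A(K_2 ∪ K_{3,3}) = 1`,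
`γ_B(K_2 ∪ K_{3,3}) = 2`.  The games are evaluated by the kernel.
-/

set_option autoImplicit false

namespace Pool.Agent.Results.MP_2ce84e_co.NoFormula

open Pool.Agent.Results.MP_e0e877_co.Monotone Pool.Agent.Q261.Bulk

/-- The game domatic number (`b = true`) and the delayed game domatic number (`b = false`): the
largest `k ≥ 1` for which Alice has a winning strategy in the A-game (B-game) with palette `[k]`. -/
noncomputable def gameDomatic {V : Type} [DecidableEq V] (H : SimpleGraph V) (b : Bool) : ℕ :=
  sSup {k | 1 ≤ k ∧ AliceWinsGame H k b}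

theorem nbhd_bound {V : Type} [DecidableEq V] [Finite V] {H : SimpleGraph V} {k : ℕ} (x : V)
    (b : Bool) (c : V → Option (Fin k)) (h : AliceWins H k b c) :
    k ≤ {y | y = x ∨ H.Adj x y}.ncard := by
  induction h with
  | finished b c h =>
    choose y hy1 hy2 using h.2 x
    have hinj : Function.Injective y := by
      intro a a' haa'
      have h1 := hy2 a
      rw [haa', hy2 a'] at h1
      exact (Option.some.inj h1).symm
    have h1 : (Set.range y).ncard = k := by
      rw [← Set.image_univ, Set.ncard_image_of_injective _ hinj, Set.ncard_univ]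
      simp
    rw [← h1]
    apply Set.ncard_le_ncard _ (Set.toFinite _)
    rintro _ ⟨a, rfl⟩
    exact hy1 a
  | alice c v a hv h ih => exact ih
  | bob c hc h ih =>
    obtain ⟨v, hv⟩ := hc
    by_cases hk : 0 < k
    · exact ih v hv ⟨0, hk⟩
    · omega

theorem gameDomatic_eq {V : Type} [DecidableEq V] [Finite V] [Nonempty V] (H : SimpleGraph V)
    (b : Bool) (m : ℕ) (hm : 1 ≤ m) (h1 : AliceWinsGame H m b) (h2 : ¬ AliceWinsGame H (m + 1) b) :
    gameDomatic H b = m := by
  obtain ⟨M, hM, hM2⟩ := (Pool.Agent.Results.MP_e0e877_co.Monotone.result V H b).2.1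
  have h3 : m ≤ M := (hM2 m hm).1 h1
  have h4 : ¬ (m + 1 ≤ M) := fun h => h2 ((hM2 (m + 1) (by omega)).2 h)
  have h5 : M = m := by omega
  subst h5
  have : {k | 1 ≤ k ∧ AliceWinsGame H k b} = Set.Icc 1 M := by
    ext k
    constructor
    · rintro ⟨ha, hb⟩
      exact ⟨ha, (hM2 k ha).1 hb⟩
    · rintro ⟨ha, hb⟩
      exact ⟨ha, (hM2 k ha).2 hb⟩
  unfold gameDomatic
  rw [this]
  exact csSup_Icc hM

/-! ### Evaluation of the game -/

/-- evaluation of a position: `p` codes the partial colouring, with bit `a * n + v` set when the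
vertex `v` has the colour `a`; `f` is the number of uncoloured vertices -/
def aw (n k : ℕ) (nb : List (List ℕ)) : ℕ → Bool → ℕ → Bool
  | 0, _, p => nb.all (fun l => (List.range k).all (fun a => l.any (fun y => p.testBit (a * n + y))))
  | f + 1, true, p => (List.range n).any (fun v =>
      (List.range k).all (fun a => !(p.testBit (a * n + v))) &&
      (List.range k).any (fun a => aw n k nb f false (p ||| 2 ^ (a * n + v))))
  | f + 1, false, p => (List.range n).all (fun v =>
      (List.range k).any (fun a => p.testBit (a * n + v)) ||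
      (List.range k).all (fun a => aw n k nb f true (p ||| 2 ^ (a * n + v))))

section

variable {V : Type} [DecidableEq V] [Finite V] {H : SimpleGraph V} {n k : ℕ} (e : V ≃ Fin n)

/-- `p` codes the partial colouring `c` -/
def Codes (p : ℕ) (c : V → Option (Fin k)) : Prop :=
  ∀ v a, p.testBit (a.val * n + (e v).val) = true ↔ c v = some a

omit [DecidableEq V] [Finite V] in
theorem codes_none {p : ℕ} {c : V → Option (Fin k)} (h : Codes e p c) (v : V) :
    c v = none ↔ ∀ a ∈ List.range k, p.testBit (a * n + (e v).val) = false := by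
  constructor
  · intro hv a ha
    rw [List.mem_range] at ha
    have := (h v ⟨a, ha⟩).not
    rw [hv] at this
    simpa using this
  · intro hv
    by_contra hne
    obtain ⟨a, ha⟩ := Option.ne_none_iff_exists'.1 hne
    have h1 := (h v a).2 ha
    rw [hv a.val (List.mem_range.2 a.2)] at h1
    exact Bool.false_ne_true h1

omit [Finite V] in
theorem codes_update {p : ℕ} {c : V → Option (Fin k)} (h : Codes e p c) (v : V) (a : Fin k)
    (hv : c v = none) :
    Codes e (p ||| 2 ^ (a.val * n + (e v).val)) (Function.update c v (some a)) := by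
  intro w a'
  rw [Nat.testBit_or, Nat.testBit_two_pow, Bool.or_eq_true, decide_eq_true_iff, h w a']
  by_cases hw : w = v
  · subst hw
    rw [Function.update_self, hv]
    constructor
    · rintro (h1 | h1)
      · exact absurd h1 (by simp)
      · have : a.val * n = a'.val * n := by omega
        have hn : 0 < n := lt_of_le_of_lt (Nat.zero_le _) (e w).2
        have := Nat.eq_of_mul_eq_mul_right hn this
        rw [Fin.ext this]
    · intro h1
      right
      rw [Option.some.inj h1]
  · rw [Function.update_of_ne hw]
    constructor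
    · rintro (h1 | h1)
      · exact h1
      · exfalso
        have hv2 := (e v).2
        have hw2 := (e w).2
        have h3 : (a.val * n + (e v).val) % n = (a'.val * n + (e w).val) % n := by rw [h1]
        rw [Nat.mul_add_mod', Nat.mul_add_mod', Nat.mod_eq_of_lt hv2, Nat.mod_eq_of_lt hw2] at h3
        exact hw (e.injective (Fin.ext h3.symm))
    · intro h1
      exact Or.inl h1

theorem aw_iff (nb : List (List ℕ)) (hlen : nb.length = n)
    (hnb : ∀ x y : V, (e y).val ∈ nb.getD (e x).val [] ↔ (y = x ∨ H.Adj x y))
    (hlt : ∀ l ∈ nb, ∀ y ∈ l, y < n) :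
    ∀ (f p : ℕ) (c : V → Option (Fin k)), Codes e p c → (free c).ncard = f → ∀ b,
      (aw n k nb f b p = true ↔ AliceWins H k b c) := by
  intro f
  induction f with
  | zero =>
    intro p c hc hf b
    have h0 := not_none_of_free c hf.le
    have hgood : aw n k nb 0 b p = true ↔ Good H c := by
      rw [aw, List.all_eq_true]
      constructor
      · intro h
        refine ⟨h0, fun x a => ?_⟩
        have hx : (e x).val < nb.length := by rw [hlen]; exact (e x).2
        have h1 := h (nb.getD (e x).val []) (by
          rw [List.getD_eq_getElem _ _ hx]; exact List.getElem_mem hx)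
        rw [List.all_eq_true] at h1
        have h2 := h1 a.val (List.mem_range.2 a.2)
        rw [List.any_eq_true] at h2
        obtain ⟨y, hy, h3⟩ := h2
        have hyn : y < n := hlt _ (by rw [List.getD_eq_getElem _ _ hx]; exact List.getElem_mem hx) y hy
        refine ⟨e.symm ⟨y, hyn⟩, ?_, ?_⟩
        · rw [← hnb, Equiv.apply_symm_apply]
          exact hy
        · rw [← hc, Equiv.apply_symm_apply]
          exact h3
      · intro h l hl
        obtain ⟨i, hi, rfl⟩ := List.getElem_of_mem hl
        rw [List.all_eq_true]
        intro a ha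
        rw [List.mem_range] at ha
        rw [List.any_eq_true]
        have hin : i < n := by rw [← hlen]; exact hi
        obtain ⟨y, hy, h1⟩ := h.2 (e.symm ⟨i, hin⟩) ⟨a, ha⟩
        refine ⟨(e y).val, ?_, (hc y ⟨a, ha⟩).2 h1⟩
        have := (hnb (e.symm ⟨i, hin⟩) y).2 hy
        rw [Equiv.apply_symm_apply, List.getD_eq_getElem _ _ hi] at this
        exact this
    rw [hgood]
    constructor
    · exact fun h => AliceWins.finished b c h
    · intro h
      cases h with
      | finished _ _ h => exact h
      | alice _ v _ hv _ => exact absurd hv (h0 v)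
      | bob _ hc _ => obtain ⟨v, hv⟩ := hc; exact absurd hv (h0 v)
  | succ f ih =>
    intro p c hc hf b
    have hex : ∃ v, c v = none := by
      by_contra hcon
      push Not at hcon
      have : free c = ∅ := by
        ext v
        simp only [free, Set.mem_ofPred_eq, Set.mem_empty_iff_false, iff_false]
        exact hcon v
      rw [this, Set.ncard_empty] at hf
      omega
    have hcard : ∀ v a, c v = none → (free (Function.update c v (some a))).ncard = f := by
      intro v a hv
      have hv' : v ∈ free c := hv
      rw [free_update, Set.ncard_sdiff_singleton_of_mem hv']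
      omega
    cases b with
    | true =>
      rw [aw, List.any_eq_true]
      constructor
      · rintro ⟨i, hi, h⟩
        rw [Bool.and_eq_true, List.all_eq_true, List.any_eq_true] at h
        rw [List.mem_range] at hi
        obtain ⟨h1, a, ha, h2⟩ := h
        rw [List.mem_range] at ha
        have hv : c (e.symm ⟨i, hi⟩) = none := by
          rw [codes_none e hc, Equiv.apply_symm_apply]
          intro a ha
          have := h1 a ha
          simpa using this
        have h3 := codes_update e hc (e.symm ⟨i, hi⟩) ⟨a, ha⟩ hv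
        rw [Equiv.apply_symm_apply] at h3
        exact AliceWins.alice c _ ⟨a, ha⟩ hv ((ih _ _ h3 (hcard _ _ hv) false).1 h2)
      · intro h
        cases h with
        | finished _ _ h => obtain ⟨v, hv⟩ := hex; exact absurd hv (h.1 v)
        | alice _ v a hv h =>
          refine ⟨(e v).val, List.mem_range.2 (e v).2, ?_⟩
          rw [Bool.and_eq_true, List.all_eq_true, List.any_eq_true]
          refine ⟨?_, a.val, List.mem_range.2 a.2, ?_⟩
          · intro a ha
            rw [(codes_none e hc v).1 hv a ha]
            rfl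
          · exact (ih _ _ (codes_update e hc v a hv) (hcard _ _ hv) false).2 h
    | false =>
      rw [aw, List.all_eq_true]
      constructor
      · intro h
        refine AliceWins.bob c hex (fun v hv a => ?_)
        have h1 := h (e v).val (List.mem_range.2 (e v).2)
        rw [Bool.or_eq_true, List.any_eq_true, List.all_eq_true] at h1
        rcases h1 with ⟨a', ha', h2⟩ | h1
        · rw [(codes_none e hc v).1 hv a' ha'] at h2
          exact absurd h2 Bool.false_ne_true
        · exact (ih _ _ (codes_update e hc v a hv) (hcard _ _ hv) true).1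
            (h1 a.val (List.mem_range.2 a.2))
      · intro h i hi
        rw [List.mem_range] at hi
        rw [Bool.or_eq_true, List.any_eq_true, List.all_eq_true]
        cases h with
        | finished _ _ h => obtain ⟨v, hv⟩ := hex; exact absurd hv (h.1 v)
        | bob _ hc' h =>
          by_cases hv : c (e.symm ⟨i, hi⟩) = none
          · right
            intro a ha
            rw [List.mem_range] at ha
            have h3 := codes_update e hc (e.symm ⟨i, hi⟩) ⟨a, ha⟩ hv
            rw [Equiv.apply_symm_apply] at h3
            exact (ih _ _ h3 (hcard _ _ hv) true).2 (h _ hv ⟨a, ha⟩)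
          · left
            obtain ⟨a, ha⟩ := Option.ne_none_iff_exists'.1 hv
            have h3 := (hc _ a).2 ha
            rw [Equiv.apply_symm_apply] at h3
            exact ⟨a.val, List.mem_range.2 a.2, h3⟩

theorem game_iff (nb : List (List ℕ)) (hlen : nb.length = n)
    (hnb : ∀ x y : V, (e y).val ∈ nb.getD (e x).val [] ↔ (y = x ∨ H.Adj x y))
    (hlt : ∀ l ∈ nb, ∀ y ∈ l, y < n) (b : Bool) :
    aw n k nb n b 0 = true ↔ AliceWinsGame H k b := by
  refine aw_iff e nb hlen hnb hlt n 0 _ (fun v a => by simp) ?_ b
  have : free (fun _ : V => (none : Option (Fin k))) = Set.univ := by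
    ext v; simp [free]
  rw [this, Set.ncard_univ, Nat.card_congr e]
  simp

end

/-! ### Evaluation of all positions at the same time -/

/-- the table of the values `aw n k nb f b p`, `p < 2 ^ (k * n)` -/
def tab (n k : ℕ) (nb : List (List ℕ)) : ℕ → Bool → ℕ
  | 0, _ => andL (k * n) (nb.map (fun l => andL (k * n) ((List.range k).map (fun a =>
      orL (l.map (fun y => P (k * n) (a * n + y)))))))
  | f + 1, true => orL ((List.range n).map (fun v =>
      andL (k * n) ((List.range k).map (fun a => compl (k * n) (P (k * n) (a * n + v)))) &&&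
      orL ((List.range k).map (fun a => tab n k nb f false >>> (2 ^ (a * n + v))))))
  | f + 1, false => andL (k * n) ((List.range n).map (fun v =>
      orL ((List.range k).map (fun a => P (k * n) (a * n + v))) |||
      andL (k * n) ((List.range k).map (fun a => tab n k nb f true >>> (2 ^ (a * n + v))))))

theorem idx_lt {n k a v : ℕ} (ha : a < k) (hv : v < n) : a * n + v < k * n := by
  have : (a + 1) * n ≤ k * n := Nat.mul_le_mul_right n ha
  rw [Nat.succ_mul] at this
  omega

theorem all_congr' {α : Type} (l : List α) (f g : α → Bool) (h : ∀ x ∈ l, f x = g x) :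
    l.all f = l.all g := by
  rw [Bool.eq_iff_iff, List.all_eq_true, List.all_eq_true]
  exact forall_congr' fun x => forall_congr' fun hx => by rw [h x hx]

theorem any_congr' {α : Type} (l : List α) (f g : α → Bool) (h : ∀ x ∈ l, f x = g x) :
    l.any f = l.any g := by
  rw [Bool.eq_iff_iff, List.any_eq_true, List.any_eq_true]
  exact exists_congr fun x => and_congr_right fun hx => by rw [h x hx]

theorem tab_eq (n k : ℕ) (nb : List (List ℕ)) (hlt : ∀ l ∈ nb, ∀ y ∈ l, y < n) :
    ∀ (f : ℕ) (b : Bool) (p : ℕ), p < 2 ^ (k * n) → (tab n k nb f b).testBit p = aw n k nb f b p := by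
  intro f
  induction f with
  | zero =>
    intro b p hp
    rw [tab, aw, testBit_andL hp, List.all_map]
    apply all_congr'
    intro l hl
    simp only [Function.comp_apply]
    rw [testBit_andL hp, List.all_map]
    apply all_congr'
    intro a ha
    rw [List.mem_range] at ha
    simp only [Function.comp_apply]
    rw [testBit_orL, List.any_map]
    apply any_congr'
    intro y hy
    simp only [Function.comp_apply]
    rw [testBit_P, decide_eq_true hp, decide_eq_true (idx_lt ha (hlt l hl y hy)), Bool.true_and,
      Bool.true_and]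
  | succ f ih =>
    intro b p hp
    cases b with
    | true =>
      rw [tab, aw, testBit_orL, List.any_map]
      apply any_congr'
      intro v hv
      rw [List.mem_range] at hv
      simp only [Function.comp_apply]
      rw [Nat.testBit_and, testBit_andL hp, List.all_map, testBit_orL, List.any_map]
      have h1 : (List.range k).all ((fun x => x.testBit p) ∘
          fun a => compl (k * n) (P (k * n) (a * n + v))) =
          (List.range k).all (fun a => !(p.testBit (a * n + v))) := by
        apply all_congr'
        intro a ha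
        rw [List.mem_range] at ha
        simp only [Function.comp_apply]
        rw [testBit_compl _ hp, testBit_P, decide_eq_true hp, decide_eq_true (idx_lt ha hv),
          Bool.true_and, Bool.true_and]
      rw [h1]
      by_cases h2 : (List.range k).all (fun a => !(p.testBit (a * n + v))) = true
      · rw [h2, Bool.true_and, Bool.true_and]
        rw [List.all_eq_true] at h2
        apply any_congr'
        intro a ha
        have h3 : p.testBit (a * n + v) = false := by simpa using h2 a ha
        rw [List.mem_range] at ha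
        simp only [Function.comp_apply]
        rw [testBit_shift _ h3, ih _ _ (Nat.or_lt_two_pow hp
          (Nat.pow_lt_pow_right (by norm_num) (idx_lt ha hv)))]
      · rw [Bool.not_eq_true] at h2
        rw [h2, Bool.false_and, Bool.false_and]
    | false =>
      rw [tab, aw, testBit_andL hp, List.all_map]
      apply all_congr'
      intro v hv
      rw [List.mem_range] at hv
      simp only [Function.comp_apply]
      rw [Nat.testBit_or, testBit_andL hp, List.all_map, testBit_orL, List.any_map]
      have h1 : (List.range k).any ((fun x => x.testBit p) ∘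
          fun a => P (k * n) (a * n + v)) =
          (List.range k).any (fun a => p.testBit (a * n + v)) := by
        apply any_congr'
        intro a ha
        rw [List.mem_range] at ha
        simp only [Function.comp_apply]
        rw [testBit_P, decide_eq_true hp, decide_eq_true (idx_lt ha hv),
          Bool.true_and, Bool.true_and]
      rw [h1]
      by_cases h2 : (List.range k).any (fun a => p.testBit (a * n + v)) = true
      · rw [h2, Bool.true_or, Bool.true_or]
      · rw [Bool.not_eq_true] at h2
        rw [h2, Bool.false_or, Bool.false_or]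
        rw [List.any_eq_false] at h2
        apply all_congr'
        intro a ha
        have h3 : p.testBit (a * n + v) = false := by simpa using h2 a ha
        rw [List.mem_range] at ha
        simp only [Function.comp_apply]
        rw [testBit_shift _ h3, ih _ _ (Nat.or_lt_two_pow hp
          (Nat.pow_lt_pow_right (by norm_num) (idx_lt ha hv)))]

theorem eval {n k : ℕ} {nb : List (List ℕ)} (hlt : ∀ l ∈ nb, ∀ y ∈ l, y < n) {f : ℕ} {b r : Bool}
    (h : (tab n k nb f b).testBit 0 = r) : aw n k nb f b 0 = r := by
  rw [← tab_eq n k nb hlt f b 0 (by positivity)]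
  exact h

/-! ### The graphs -/

/-- `K_2` -/
abbrev K2 : SimpleGraph (Fin 2) := ⊤

/-- `K_3` -/
abbrev K3 : SimpleGraph (Fin 3) := ⊤

/-- `K_{3,3}` -/
abbrev K33 : SimpleGraph (Fin 3 ⊕ Fin 3) := completeBipartiteGraph (Fin 3) (Fin 3)

/-- closed neighbourhoods in `K_2`, `K_3`, `K_{3,3}` and the two unions -/
def nb2 : List (List ℕ) := [[0, 1], [0, 1]]
/-- see `nb2` -/
def nb3 : List (List ℕ) := [[0, 1, 2], [0, 1, 2], [0, 1, 2]]
/-- see `nb2` -/
def nb33 : List (List ℕ) :=
  [[0, 3, 4, 5], [1, 3, 4, 5], [2, 3, 4, 5], [0, 1, 2, 3], [0, 1, 2, 4], [0, 1, 2, 5]]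
/-- see `nb2` -/
def nb23 : List (List ℕ) := [[0, 1], [0, 1], [2, 3, 4], [2, 3, 4], [2, 3, 4]]
/-- see `nb2` -/
def nb233 : List (List ℕ) := [[0, 1], [0, 1],
  [2, 5, 6, 7], [3, 5, 6, 7], [4, 5, 6, 7], [2, 3, 4, 5], [2, 3, 4, 6], [2, 3, 4, 7]]

instance : DecidableRel K33.Adj := fun x y =>
  inferInstanceAs (Decidable (x.isLeft ∧ y.isRight ∨ x.isRight ∧ y.isLeft))

instance {V W : Type} (G : SimpleGraph V) (H : SimpleGraph W) [DecidableRel G.Adj]
    [DecidableRel H.Adj] : DecidableRel (G ⊕g H).Adj
  | .inl u, .inl v => inferInstanceAs (Decidable (G.Adj u v))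
  | .inr u, .inr v => inferInstanceAs (Decidable (H.Adj u v))
  | .inl _, .inr _ => isFalse (by simp)
  | .inr _, .inl _ => isFalse (by simp)

theorem win2 (k : ℕ) (b : Bool) : aw 2 k nb2 2 b 0 = true ↔ AliceWinsGame K2 k b :=
  game_iff (V := Fin 2) (H := K2) (n := 2) (Equiv.refl _) nb2 rfl (by decide) (by decide) b

theorem win3 (k : ℕ) (b : Bool) : aw 3 k nb3 3 b 0 = true ↔ AliceWinsGame K3 k b :=
  game_iff (V := Fin 3) (H := K3) (n := 3) (Equiv.refl _) nb3 rfl (by decide) (by decide) b

theorem win33 (k : ℕ) (b : Bool) : aw 6 k nb33 6 b 0 = true ↔ AliceWinsGame K33 k b :=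
  game_iff (V := Fin 3 ⊕ Fin 3) (H := K33) (n := 6) finSumFinEquiv nb33 rfl (by decide)
    (by decide) b

theorem win23 (k : ℕ) (b : Bool) : aw 5 k nb23 5 b 0 = true ↔ AliceWinsGame (K2 ⊕g K3) k b :=
  game_iff (V := Fin 2 ⊕ Fin 3) (H := K2 ⊕g K3) (n := 5) finSumFinEquiv nb23 rfl (by decide)
    (by decide) b

/-- the numbering of the vertices of `K_2 ∪ K_{3,3}` -/
def e233 : Fin 2 ⊕ (Fin 3 ⊕ Fin 3) ≃ Fin 8 :=
  (Equiv.sumCongr (Equiv.refl _) finSumFinEquiv).trans finSumFinEquiv

theorem win233 (k : ℕ) (b : Bool) : aw 8 k nb233 8 b 0 = true ↔ AliceWinsGame (K2 ⊕g K33) k b :=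
  game_iff (V := Fin 2 ⊕ (Fin 3 ⊕ Fin 3)) (H := K2 ⊕g K33) (n := 8) e233 nb233 rfl (by decide)
    (by decide) b

theorem not_three_of_card {V : Type} [DecidableEq V] [Finite V] {H : SimpleGraph V} (x : V)
    (hx : {y | y = x ∨ H.Adj x y}.ncard ≤ 2) (b : Bool) : ¬ AliceWinsGame H (2 + 1) b := by
  intro h
  have := nbhd_bound x b _ h
  omega

theorem card_K2 : {y : Fin 2 | y = 0 ∨ K2.Adj 0 y}.ncard ≤ 2 := by
  refine (Set.ncard_le_ncard (Set.subset_univ _) (Set.toFinite _)).trans ?_
  rw [Set.ncard_univ]
  simp

theorem card_sum {V : Type} (G : SimpleGraph V) :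
    {y : Fin 2 ⊕ V | y = .inl 0 ∨ (K2 ⊕g G).Adj (.inl 0) y}.ncard ≤ 2 := by
  have h : {y : Fin 2 ⊕ V | y = .inl 0 ∨ (K2 ⊕g G).Adj (.inl 0) y} ⊆
      (Sum.inl : Fin 2 → Fin 2 ⊕ V) '' Set.univ := by
    rintro (y | y) h
    · exact ⟨y, trivial, rfl⟩
    · exfalso
      rcases h with h | h
      · cases h
      · simp at h
  refine (Set.ncard_le_ncard h ((Set.toFinite _).image _)).trans ?_
  refine (Set.ncard_image_le (Set.toFinite _)).trans ?_
  rw [Set.ncard_univ]
  simp

theorem val_K2A : gameDomatic K2 true = 1 :=
  gameDomatic_eq K2 true 1 le_rfl ((win2 1 true).1 (eval (by decide) (by decide +kernel)))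
    (fun h => absurd ((win2 2 true).2 h) (by
      rw [eval (r := false) (by decide) (by decide +kernel)]; exact Bool.false_ne_true))

theorem val_K2B : gameDomatic K2 false = 2 :=
  gameDomatic_eq K2 false 2 (by norm_num) ((win2 2 false).1 (eval (by decide) (by decide +kernel)))
    (not_three_of_card 0 card_K2 false)

theorem val_K3A : gameDomatic K3 true = 2 :=
  gameDomatic_eq K3 true 2 (by norm_num) ((win3 2 true).1 (eval (by decide) (by decide +kernel)))
    (fun h => absurd ((win3 3 true).2 h) (by
      rw [eval (r := false) (by decide) (by decide +kernel)]; exact Bool.false_ne_true))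

theorem val_K3B : gameDomatic K3 false = 2 :=
  gameDomatic_eq K3 false 2 (by norm_num) ((win3 2 false).1 (eval (by decide) (by decide +kernel)))
    (fun h => absurd ((win3 3 false).2 h) (by
      rw [eval (r := false) (by decide) (by decide +kernel)]; exact Bool.false_ne_true))

theorem val_K33A : gameDomatic K33 true = 2 :=
  gameDomatic_eq K33 true 2 (by norm_num) ((win33 2 true).1 (eval (by decide) (by decide +kernel)))
    (fun h => absurd ((win33 3 true).2 h) (by
      rw [eval (r := false) (by decide) (by decide +kernel)]; exact Bool.false_ne_true))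

theorem val_K33B : gameDomatic K33 false = 2 :=
  gameDomatic_eq K33 false 2 (by norm_num) ((win33 2 false).1 (eval (by decide) (by decide +kernel)))
    (fun h => absurd ((win33 3 false).2 h) (by
      rw [eval (r := false) (by decide) (by decide +kernel)]; exact Bool.false_ne_true))

theorem val_K23A : gameDomatic (K2 ⊕g K3) true = 2 :=
  gameDomatic_eq (K2 ⊕g K3) true 2 (by norm_num) ((win23 2 true).1 (eval (by decide) (by decide +kernel)))
    (not_three_of_card (.inl 0) (card_sum K3) true)

theorem val_K23B : gameDomatic (K2 ⊕g K3) false = 1 :=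
  gameDomatic_eq (K2 ⊕g K3) false 1 le_rfl ((win23 1 false).1 (eval (by decide) (by decide +kernel)))
    (fun h => absurd ((win23 2 false).2 h) (by
      rw [eval (r := false) (by decide) (by decide +kernel)]; exact Bool.false_ne_true))

theorem val_K233A : gameDomatic (K2 ⊕g K33) true = 1 :=
  gameDomatic_eq (K2 ⊕g K33) true 1 le_rfl (one_wins _ _ le_rfl true)
    (fun h => absurd ((win233 2 true).2 h) (by
      rw [eval (r := false) (by decide) (by decide +kernel)]; exact Bool.false_ne_true))

theorem val_K233B : gameDomatic (K2 ⊕g K33) false = 2 :=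
  gameDomatic_eq (K2 ⊕g K33) false 2 (by norm_num) ((win233 2 false).1 (eval (by decide) (by decide +kernel)))
    (not_three_of_card (.inl 0) (card_sum K33) false)

/-- `K_3` and `K_{3,3}` have the same game domatic number `2` and the same delayed game domatic
number `2`, but for their disjoint unions with `K_2` both invariants differ.  Hence neither
`γ_A(G₁ ∪ G₂)` nor `γ_B(G₁ ∪ G₂)` is a function of `γ_A(G₁), γ_B(G₁), γ_A(G₂), γ_B(G₂)`. -/
theorem result :
    ((gameDomatic K2 true = 1 ∧ gameDomatic K2 false = 2) ∧
      (gameDomatic K3 true = 2 ∧ gameDomatic K3 false = 2) ∧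
      (gameDomatic K33 true = 2 ∧ gameDomatic K33 false = 2) ∧
      (gameDomatic (K2 ⊕g K3) true = 2 ∧ gameDomatic (K2 ⊕g K3) false = 1) ∧
      (gameDomatic (K2 ⊕g K33) true = 1 ∧ gameDomatic (K2 ⊕g K33) false = 2)) ∧
    (∀ b : Bool, ¬ ∃ f : ℕ → ℕ → ℕ → ℕ → ℕ,
      ∀ (V W : Type) [DecidableEq V] [DecidableEq W] [Finite V] [Finite W] [Nonempty V]
        [Nonempty W] (G₁ : SimpleGraph V) (G₂ : SimpleGraph W),
        gameDomatic (G₁ ⊕g G₂) b =
          f (gameDomatic G₁ true) (gameDomatic G₁ false) (gameDomatic G₂ true)
            (gameDomatic G₂ false)) := by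
  refine ⟨⟨⟨val_K2A, val_K2B⟩, ⟨val_K3A, val_K3B⟩, ⟨val_K33A, val_K33B⟩, ⟨val_K23A, val_K23B⟩,
    ⟨val_K233A, val_K233B⟩⟩, ?_⟩
  rintro b ⟨f, hf⟩
  have h1 := hf (Fin 2) (Fin 3) K2 K3
  have h2 := hf (Fin 2) (Fin 3 ⊕ Fin 3) K2 K33
  rw [val_K2A, val_K2B, val_K3A, val_K3B] at h1
  rw [val_K2A, val_K2B, val_K33A, val_K33B, ← h1] at h2
  cases b with
  | true => rw [val_K23A, val_K233A] at h2; omega
  | false => rw [val_K23B, val_K233B] at h2; omega

end Pool.Agent.Results.MP_2ce84e_co.NoFormula
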